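import Pool.Agent.H.MP_fed070_lc.Val
import Pool.Agent.Lib.helper26.Pres

namespace Pool.Agent.H.MP_fed070_lc

open Filter Encodable Classical MvPolynomial Pool.Agent.Lib.PR Pool.Agent.Lib.helper21.CPred
open Pool.Agent.H.MP_5ae901_lc (Mo Po pmul Same tf p_pmul p_Same)
open Pool.Agent.Lib.helper26.Low

attribute [local irreducible] Primrec Computable

/-- value of a fraction code -/
noncomputable def fr (c : Po × Po) : K := algebraMap A K (P c.1) / algebraMap A K (P c.2)

/-- formal vanishing -/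
def Z2 (p : Po) : Prop := ∀ l ∈ p.map Prod.snd, ¬ NZ p l

theorem Z2_iff {p} : Z2 p ↔ P p = 0 := by
  rw [← not_iff_not, ← Ne, P_ne]
  simp [Z2]

theorem fr_eq {c} : fr c = 0 ↔ Z2 c.1 ∨ Z2 c.2 := by simp [fr, Z2_iff]

section
variable {α : Type} [Primcodable α]
@[fun_prop] theorem p_pn {f : α → Po} (hf : Primrec f) :
    Primrec fun a => pn (f a) := by unfold pn; fun_prop
@[fun_prop] theorem p_NZ {f : α → Po} {g : α → List ℕ} (hf : Primrec f) (hg : Primrec g) :
    Primrec fun a => cd (NZ (f a) (g a)) := by unfold NZ; fun_prop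
@[fun_prop] theorem p_Z2 {f : α → Po} (hf : Primrec f) :
    Primrec fun a => cd (Z2 (f a)) := by unfold Z2; fun_prop
theorem cp {p : α → Prop} (h : Primrec fun a => cd (p a)) : ComputablePred p :=
  (pred h).computablePred
end

namespace Tr

variable (τ : Tr)

theorem exists_lm : ∃ lm : Po → List ℕ, Computable lm ∧ ∀ p, P p ≠ 0 → τ.Min p (lm p) := by
  have h1 : ComputablePred fun z : Po × ℕ => Z2 z.1 ∨ (NZ z.1 (dl z.2) ∧ ∀ i < z.1.length,
      ¬ NZ z.1 (z.1.getD i (0, [])).2 ∨ τ.Le (dl z.2) (z.1.getD i (0, [])).2) :=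
    cor (cp (by fun_prop)) (cand (cp (by fun_prop)) (call (cor (cp (by fun_prop))
      (ccomp τ.cLe (f := fun z : (Po × ℕ) × ℕ => (dl z.1.2, (z.1.1.getD z.2 (0, [])).2))
        (c_prim (by fun_prop)))) (c_prim (by fun_prop))))
  have h2 : ∀ (p : Po) l, (NZ p l ∧ ∀ i < p.length,
      ¬ NZ p (p.getD i (0, [])).2 ∨ τ.Le l (p.getD i (0, [])).2) ↔ τ.Min p l := fun p l => by
    refine and_congr_right fun _ => ⟨fun h l' hl => ?_, fun h i hi => ?_⟩
    · obtain ⟨m, hm, rfl⟩ := List.mem_map.1 hl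
      obtain ⟨i, hi, rfl⟩ := List.getElem_of_mem hm
      have := h i hi
      rw [List.getD_eq_getElem _ _ hi] at this
      tauto
    · rw [List.getD_eq_getElem _ _ hi]
      have := h _ (List.mem_map_of_mem (List.getElem_mem hi))
      tauto
  simp only [h2] at h1
  obtain ⟨f, hf, h⟩ := cfind' (P := fun p n => Z2 p ∨ τ.Min p (dl n)) h1 fun p => by
    by_cases k : P p = 0
    · exact ⟨0, .inl (Z2_iff.2 k)⟩
    · obtain ⟨l, hl⟩ := exists_Min (τ := τ) k
      exact ⟨encode l, .inr (by simpa)⟩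
  exact ⟨fun p => dl (f p), (p_dl Primrec.id).to_comp.comp hf, fun p k =>
    (h p).1.resolve_left (mt Z2_iff.1 k)⟩

/-- a leading monomial -/
noncomputable def lm : Po → List ℕ := τ.exists_lm.choose

theorem clm : Computable τ.lm := τ.exists_lm.choose_spec.1

theorem ν_fr {c} (h : fr c ≠ 0) :
    ∀ᶠ t in atTop, τ.ν (fr c) t = τ.W t (τ.lm c.1) - τ.W t (τ.lm c.2) := by
  simp only [Ne, fr_eq, Z2_iff, not_or] at h
  exact ν_eq (τ.exists_lm.choose_spec.2 _ h.1) (τ.exists_lm.choose_spec.2 _ h.2)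

theorem ctest {β : Type} [Primcodable β] {F G : List ℕ × List ℕ × β → List ℕ} (hF : Primrec F)
    (hG : Primrec G) : ComputablePred fun z : (Po × Po) × β =>
      τ.Le (F (τ.lm z.1.1, τ.lm z.1.2, z.2)) (G (τ.lm z.1.1, τ.lm z.1.2, z.2)) :=
  ccomp τ.cLe ((hF.pair hG).to_comp.comp ((τ.clm.comp (c_prim (by fun_prop))).pair
    ((τ.clm.comp (c_prim (by fun_prop))).pair Computable.snd)))

theorem czero {β : Type} [Primcodable β] : ComputablePred fun z : (Po × Po) × β => fr z.1 = 0 :=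
  (cp (p := fun z : (Po × Po) × β => Z2 z.1.1 ∨ Z2 z.1.2) (by fun_prop)).of_eq fun _ => fr_eq.symm

/-- bounded below -/
def B (y : K) (n : ℕ) : Prop := ∀ᶠ t in atTop, -n ≤ τ.ν y t

theorem W_rep (t n) : τ.W t (List.replicate n 0) = n := by
  induction n with
  | zero => rfl
  | succ n ih =>
    have : dl 0 = [] := dl_encode []
    simp [List.replicate_succ, ih, this, add_comm]

theorem cB : ComputablePred fun z : (Po × Po) × ℕ => fr z.1 ≠ 0 ∧ τ.B (fr z.1) z.2 :=
  (cand czero.not (τ.ctest (F := fun z => z.2.1) (G := fun z => z.1 ++ List.replicate z.2.2 0)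
    (by fun_prop) (by fun_prop))).of_eq fun z => and_congr_right fun h =>
      eventually_congr ((τ.ν_fr h).mono fun t ht => by simp only [W_append, W_rep]; omega)

/-- repaired codes -/
noncomputable def fx (z : (Po × Po) × ℕ) : Po × Po :=
  if fr z.1 ≠ 0 ∧ τ.B (fr z.1) z.2 then z.1 else ([], [(0, [])])

theorem cfx : Computable τ.fx := cite τ.cB Computable.fst (Computable.const _)

theorem B_zero (n) : τ.B 0 n := .of_forall fun t => by simp [ν, nu_zero]

theorem fx_B (z) : τ.B (fr (τ.fx z)) z.2 := by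
  unfold fx
  split_ifs with h
  · exact h.2
  · simpa [fr] using τ.B_zero z.2

theorem fx_ne (z) : P (τ.fx z).2 ≠ 0 := by
  unfold fx
  split_ifs with h
  · exact fun k => h.1 (by simp [fr, k])
  · rw [P_one]; exact one_ne_zero

theorem fr_fx {c n} (h : τ.B (fr c) n) : fr (τ.fx (c, n)) = fr c := by
  unfold fx
  split_ifs with k
  · rfl
  · rw [of_not_not fun e => k ⟨e, h⟩]
    simp [fr]

/-- the numbering of the ring -/
noncomputable def val (z : (Po × Po) × ℕ) : τ.V := ⟨fr (τ.fx z), z.2, τ.fx_B z⟩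

theorem val_surj : Function.Surjective τ.val := by
  rintro ⟨y, n, h⟩
  obtain ⟨⟨a, b⟩, -, rfl⟩ := rep y
  obtain ⟨p, rfl⟩ := P_surj a
  obtain ⟨q, rfl⟩ := P_surj b
  exact ⟨((p, q), n), Subtype.ext (τ.fr_fx h)⟩

variable {τ} {y z : K} {n m : ℕ}

theorem B.add (h : τ.B y n) (k : τ.B z m) : τ.B (y + z) (n + m) := by
  by_cases hy : y = 0
  · exact k.mono fun t ht => by simp only [hy, zero_add]; omega
  by_cases hz : z = 0
  · exact h.mono fun t ht => by simp only [hz, add_zero]; omega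
  by_cases e : y + z = 0
  · exact e ▸ τ.B_zero _
  exact (h.and k).mono fun t ht => by
    have := nu_add (w := τ.wt t) hy hz e
    unfold ν at *
    omega

theorem B.mul (h : τ.B y n) (k : τ.B z m) : τ.B (y * z) (n + m) := by
  by_cases e : y * z = 0
  · exact e ▸ τ.B_zero _
  exact (h.and k).mono fun t ht => by
    have := nu_mul (w := τ.wt t) (left_ne_zero_of_mul e) (right_ne_zero_of_mul e)
    unfold ν at *
    omega

variable (τ)

theorem ops : ∃ ad mu : ((Po × Po) × ℕ) × (Po × Po) × ℕ → (Po × Po) × ℕ,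
    ∃ ng : (Po × Po) × ℕ → (Po × Po) × ℕ, Computable ad ∧ Computable mu ∧ Computable ng ∧
      (∀ c d, τ.val (ad (c, d)) = τ.val c + τ.val d) ∧
      (∀ c d, τ.val (mu (c, d)) = τ.val c * τ.val d) ∧ ∀ c, τ.val (ng c) = - τ.val c := by
  have h0 : Computable fun z : ((Po × Po) × ℕ) × (Po × Po) × ℕ =>
      ((τ.fx z.1, τ.fx z.2), z.1.2 + z.2.2) := ((τ.cfx.comp Computable.fst).pair
        (τ.cfx.comp Computable.snd)).pair (c_prim (by fun_prop))
  have h1 : Primrec fun z : ((Po × Po) × Po × Po) × ℕ =>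
    ((pmul z.1.1.1 z.1.2.2 ++ pmul z.1.1.2 z.1.2.1, pmul z.1.1.2 z.1.2.2), z.2) := by fun_prop
  have h2 : Primrec fun z : ((Po × Po) × Po × Po) × ℕ =>
    ((pmul z.1.1.1 z.1.2.1, pmul z.1.1.2 z.1.2.2), z.2) := by fun_prop
  have h3 : Primrec fun z : (Po × Po) × ℕ => ((pn z.1.1, z.1.2), z.2) := by fun_prop
  refine ⟨_, _, _, h1.to_comp.comp h0, h2.to_comp.comp h0,
    h3.to_comp.comp (τ.cfx.pair Computable.snd), fun c d => ?_, fun c d => ?_, fun c => ?_⟩
  · have e : fr (pmul (τ.fx c).1 (τ.fx d).2 ++ pmul (τ.fx c).2 (τ.fx d).1,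
        pmul (τ.fx c).2 (τ.fx d).2) = fr (τ.fx c) + fr (τ.fx d) := by
      simp only [fr, P_append, P_mul, map_add, map_mul]
      rw [div_add_div _ _ (am_ne (τ.fx_ne c)) (am_ne (τ.fx_ne d))]
    exact Subtype.ext ((τ.fr_fx (e ▸ (τ.fx_B c).add (τ.fx_B d))).trans e)
  · have e : fr (pmul (τ.fx c).1 (τ.fx d).1, pmul (τ.fx c).2 (τ.fx d).2) =
        fr (τ.fx c) * fr (τ.fx d) := by
      simp only [fr, P_mul, map_mul, div_mul_div_comm]
    exact Subtype.ext ((τ.fr_fx (e ▸ (τ.fx_B c).mul (τ.fx_B d))).trans e)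
  · have e : fr (pn (τ.fx c).1, (τ.fx c).2) = - fr (τ.fx c) := by
      simp only [fr, P_neg, map_neg, neg_div]
    refine Subtype.ext ((τ.fr_fx ?_).trans e)
    rw [e]
    simpa [B, ν, nu_neg] using τ.fx_B c

variable {τ} {f : ℕ → ℕ}

theorem cJ (hf : τ.Path f) : ComputablePred fun c => τ.val c ∈ J hf := by
  have h := cor czero (τ.ctest (β := ℕ) (F := fun z => z.1 ++ z.1 ++ z.1)
    (G := fun z => encode τ.R :: (z.2.1 ++ z.2.1 ++ z.2.1)) (by fun_prop) (by fun_prop)).not
  refine (ccomp h (τ.cfx.pair (Computable.const 0))).of_eq fun c => ?_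
  change _ ↔ (fr (τ.fx c) ≠ 0 → ∀ᶠ t in atTop, τ.w t τ.R < 3 * τ.ν (fr (τ.fx c)) t)
  rw [or_iff_not_imp_left]
  refine imp_congr_right fun h0 => ⟨fun k => ?_, fun k k2 => ?_⟩
  · filter_upwards [τ.ν_fr h0, τ.not_Le k] with t h1 h2
    simp only [W_append, W_cons, dl_encode] at h2
    zify at h2
    unfold w
    omega
  · obtain ⟨t, h1, h2, h3⟩ := ((τ.ν_fr h0).and (k.and k2)).exists
    simp only [W_append, W_cons, dl_encode] at h3
    zify at h3
    unfold w at h2
    dsimp only at h1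
    omega

variable (τ) in
theorem cpr : ∃ (ψ : ((Po × Po) × ℕ) × List ℕ → Prop) (b : (Po × Po) × ℕ → ℕ),
    ComputablePred ψ ∧ Computable b ∧ ∀ f, τ.Path f → ∀ c, τ.val c ∈ τ.pr f ↔ ψ (c, pf f (b c)) := by
  have h := cor czero (τ.ctest (β := List ℕ)
    (F := fun z => z.1.filter fun v => cd (z.2.2.take (dl v).length < dl v))
    (G := fun z => z.2.1.filter fun v => cd (z.2.2.take (dl v).length < dl v))
    (by fun_prop) (by fun_prop)).not
  have h2 : Primrec fun z : List ℕ × List ℕ => sb z.1 + sb z.2 := by unfold sb; fun_prop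
  refine ⟨_, _, ccomp h ((τ.cfx.comp Computable.fst).pair Computable.snd), h2.to_comp.comp
    ((τ.clm.comp (Computable.fst.comp τ.cfx)).pair (τ.clm.comp (Computable.snd.comp τ.cfx))),
    fun f hf c => ?_⟩
  have e : ∀ l k, sb l ≤ k → (l.filter fun v => cd ((pf f k).take (dl v).length < dl v)) =
      l.filter fun v => Rt f (dl v) := fun l k hk => List.filter_congr fun v hv => by
    have := List.single_le_sum (fun _ _ => Nat.zero_le _) _
      (List.mem_map.2 ⟨v, hv, rfl⟩ : (dl v).length ∈ l.map fun v => (dl v).length)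
    rw [take_pf f (by unfold sb at hk; omega), Bool.eq_iff_iff]
    rw [cd_true, decide_eq_true_eq, Rt]
  change (fr (τ.fx c) ≠ 0 → ¬ τ.Small f (τ.ν (fr (τ.fx c)))) ↔ _
  simp only
  rw [or_iff_not_imp_left, e _ _ (Nat.le_add_right _ _), e _ _ (Nat.le_add_left _ _)]
  refine imp_congr_right fun h0 => ⟨fun k k2 => k (small_of_le (τ.ν_fr h0) k2), fun k => ?_⟩
  obtain ⟨ρ, h3, h4⟩ := big_of_not_le hf (τ.ν_fr h0) k
  exact not_small hf h3 2 h4

theorem val_x (ρ) : τ.val (([(0, [encode ρ])], [(0, [])]), 0) = τ.x ρ := by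
  have e : fr ([(0, [encode ρ])], [(0, [])]) = τ.x ρ := by
    simp only [fr, P_one, P_X, map_one, div_one]; rfl
  refine Subtype.ext ((τ.fr_fx ?_).trans e)
  rw [e]
  exact .of_forall fun t => by simpa [ν_x] using (w_pos t ρ).le

theorem infinite_quot (hf : τ.Path f) : Infinite (τ.V ⧸ J hf) := by
  refine Infinite.of_injective (fun n : ℤ => Ideal.Quotient.mk (J hf) n) fun a b h => ?_
  by_contra k
  have h1 := Ideal.Quotient.eq.1 h (by simpa [sub_eq_zero] using k)
  obtain ⟨t, ht⟩ := h1.exists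
  have := nu_int (w := τ.wt t) (a - b)
  have h2 := w_pos (τ := τ) t τ.R
  push_cast at this ht
  unfold ν at ht
  omega

theorem main {f0} (h0 : τ.Path f0) : ∃ e : ℕ ≃ τ.V ⧸ J h0,
    Computable₂ (fun a b : ℕ => e.symm (e a + e b)) ∧
    Computable₂ (fun a b : ℕ => e.symm (e a * e b)) ∧
    Computable (fun a : ℕ => e.symm (-(e a))) ∧
    ∀ f, τ.Path f → ∀ χ : ℕ → ℕ, (∀ n, χ n = 0 ∨ χ n = 1) →
      (∀ y, χ (e.symm (Ideal.Quotient.mk _ y)) = 1 ↔ y ∈ τ.pr f) →
      TuringEquivalent (PFun.lift f) (PFun.lift χ) := by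
  obtain ⟨ad, mu, ng, c1, c2, c3, h1, h2, h3⟩ := τ.ops
  have := infinite_quot h0
  obtain ⟨e, r, i, hr, hi, k1, k2⟩ := pres' (([], []), 0)
    (fun c => Ideal.Quotient.mk (J h0) (τ.val c))
    (Ideal.Quotient.mk_surjective.comp τ.val_surj)
    ((ccomp (cJ h0) (c1.comp (Computable.fst.pair (c3.comp Computable.snd)))).of_eq fun p => by
      rw [h1, h3, Ideal.Quotient.eq, sub_eq_add_neg])
  have c4 : Computable fun p : ℕ × ℕ => (r p.1, r p.2) :=
    (hr.comp Computable.fst).pair (hr.comp Computable.snd)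
  refine ⟨e, (hi.comp (c1.comp c4)).of_eq fun p => ?_, (hi.comp (c2.comp c4)).of_eq fun p => ?_,
    (hi.comp (c3.comp hr)).of_eq fun p => ?_, fun f hf χ hχ h => ⟨CI.red ?_, CI.red ?_⟩⟩
  · simp only [← k2, k1, h1, map_add]
  · simp only [← k2, k1, h2, map_mul]
  · simp only [← k2, k1, h3, map_neg]
  · let xi : ℕ → ℕ := fun q => i (([(0, [encode (dl q.unpair.1 ++ [q.unpair.2 + 1])])],
      [(0, [])]), 0)
    have c5 : Computable xi := hi.comp (c_prim (by fun_prop))
    let H : ℕ → ℕ := fun q => (1 - χ (xi q)) * (τ.g (dl q.unpair.1) - q.unpair.2)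
    have c6 : CI {PFun.lift χ} H :=
      ((CI.of_prim (g := fun w => (1 - w.unpair.1) * w.unpair.2) (by fun_prop)).comp
        (((CI.oracle χ).comp (.of_comp c5)).pair (.of_comp (Primrec.nat_sub.to_comp.comp
          (τ.cg.comp (c_prim (f := fun q : ℕ => dl q.unpair.1) (by fun_prop)))
          (c_prim (f := fun q : ℕ => q.unpair.2) (by fun_prop)))))).of_eq fun q => by simp [H]
    have hex : ∀ a, ∃ m, H (Nat.pair a m) = 0 := fun a => ⟨τ.g (dl a), by simp [H]⟩
    have c7 : CI {PFun.lift χ} fun a => Nat.find (hex a) :=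
      c6.find fun a => ⟨Nat.find_spec (hex a), fun m hm => Nat.find_min (hex a) hm⟩
    have h5 : ∀ k, Nat.find (hex (encode (pf f k))) = f k := fun k => by
      have h6 : ∀ m, χ (xi (Nat.pair (encode (pf f k)) m)) = 1 ↔ f k ≤ m := fun m => by
        simp only [xi, Nat.unpair_pair, dl_encode]
        rw [← k2, val_x, h, x_mem hf, Rt]
        simp [pf_succ, app_lt, List.cons_lt_cons_iff]
      have h7 := τ.bd (pf f k) (f k) (pf_succ f k ▸ hf (k + 1))
      rw [Nat.find_eq_iff]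
      refine ⟨by simp [H, (h6 _).2 le_rfl], fun m hm => ?_⟩
      have := (hχ _).resolve_right (mt (h6 m).1 hm.not_ge)
      simp only [H, this, Nat.unpair_pair, dl_encode]
      omega
    have c8 : CI {PFun.lift χ} fun k => encode (pf f k) :=
      CI.rec ((CI.of_prim (g := fun w => encode (dl w.unpair.1 ++ [w.unpair.2]))
        (by fun_prop)).comp (((CI.of_prim Primrec.id).pair c7).comp
          (.of_prim (g := fun q => q.unpair.2) (by fun_prop)))) fun n => by simp [h5, pf_succ]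
    exact (c7.comp c8).of_eq h5
  · obtain ⟨ψ, b, c5, c6, h5⟩ := τ.cpr
    have c7 : Computable fun w : ℕ => if ψ (r w.unpair.1, dl w.unpair.2) then 1 else 0 :=
      cite (ccomp c5 ((hr.comp (c_prim (by fun_prop))).pair (c_prim (by fun_prop))))
        (.const 1) (.const 0)
    refine ((CI.of_comp c7).comp ((CI.of_prim Primrec.id).pair
      ((CI.oracle f).tab.comp (.of_comp (c6.comp hr))))).of_eq fun a => ?_
    have h6 := h (τ.val (r a))
    rw [← k1, Equiv.symm_apply_apply, h5 f hf] at h6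
    simp only [id, Nat.unpair_pair, dl_encode]
    split_ifs with h7
    · exact (h6.2 h7).symm
    · exact ((hχ a).resolve_right (mt h6.1 h7)).symm

end Tr

end Pool.Agent.H.MP_fed070_lc
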