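import Pool.Agent.H.MP_fed070_lc.Tree

namespace Pool.Agent.H.MP_fed070_lc

open Filter Encodable Classical

/-- initial segment of a sequence -/
def pf (f : ℕ → ℕ) (k : ℕ) : List ℕ := (List.range k).map f

@[simp] theorem pf_length (f k) : (pf f k).length = k := by simp [pf]
theorem pf_succ (f k) : pf f (k + 1) = pf f k ++ [f k] := by simp [pf, List.range_succ]
theorem take_pf (f) {j k : ℕ} (h : j ≤ k) : (pf f k).take j = pf f j := by
  simp [pf, ← List.map_take, List.take_range, h]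
theorem pf_le (f) {j k : ℕ} (h : j ≤ k) : pf f j ≤ pf f k :=
  ple (take_pf f h ▸ List.take_prefix _ _)

/-- the string lies to the right of the sequence -/
def Rt (f : ℕ → ℕ) (ρ : List ℕ) : Prop := pf f ρ.length < ρ

theorem eq_of_lt_zero : ∀ {σ τ : List ℕ}, ¬ τ < σ → τ < σ ++ [0] → τ = σ
  | [], [], _, _ => rfl
  | [], _ :: _, _, h => by simp [List.cons_lt_cons_iff] at h
  | _ :: _, [], h, _ => by simp at h
  | a :: σ, b :: τ, h, k => by
    simp only [List.cons_append, List.cons_lt_cons_iff, not_or, not_and] at h k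
    obtain rfl : b = a := by omega
    simp only [lt_irrefl, true_and, false_or] at k
    rw [eq_of_lt_zero (h.2 rfl) k]

theorem first_diff : ∀ {a b : List ℕ}, a.length = b.length → a < b →
    ∃ j < a.length, ¬ b < a.take j ++ [a.getD j 0 + 1]
  | [], [], _, h => by simp at h
  | [], _ :: _, h, _ => by simp at h
  | _ :: _, [], h, _ => by simp at h
  | x :: a, y :: b, h, k => by
    rcases List.cons_lt_cons_iff.1 k with k | ⟨rfl, k2⟩
    · exact ⟨0, by simp, by simp [List.cons_lt_cons_iff]; omega⟩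
    · obtain ⟨j, h1, h2⟩ := first_diff (a := a) (b := b) (by simpa using h) k2
      refine ⟨j + 1, by simpa using h1, fun h3 => h2 ?_⟩
      simpa [List.cons_lt_cons_iff] using h3

theorem app_lt (s : List ℕ) {a b : List ℕ} : s ++ a < s ++ b ↔ a < b := by
  induction s with
  | nil => simp
  | cons x s ih => simp [ih]

namespace Tr

variable (τ : Tr)

/-- infinite paths -/
def Path (f : ℕ → ℕ) : Prop := ∀ n, τ.T (pf f n) = true

/-- weight of a string at a stage -/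
noncomputable def w (t : ℕ) (ρ : List ℕ) : ℤ := 2 ^ τ.E t ρ

/-- the rightmost string -/
def R : List ℕ := [τ.g []]

/-- eventually a difference of monomial weights -/
def Mon (u : ℕ → ℤ) : Prop := ∃ l l', ∀ᶠ t in atTop, u t = τ.W t l - τ.W t l'

/-- bounded by the weights along the path -/
def Small (f : ℕ → ℕ) (u : ℕ → ℤ) : Prop :=
  ∃ (k : ℕ) (N : ℕ), ∀ᶠ t in atTop, u t ≤ N * τ.w t (pf f k)

variable {τ} {f : ℕ → ℕ} {u v : ℕ → ℤ}

theorem w_pos (t ρ) : 0 < τ.w t ρ := by unfold w; positivity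
theorem w_mono {t ρ ρ'} (h : ρ ≤ ρ') : τ.w t ρ ≤ τ.w t ρ' :=
  pow_le_pow_right₀ one_le_two (τ.E_mono le_rfl h)

theorem Mon.tri (h : τ.Mon u) : (∀ᶠ t in atTop, u t ≤ 0) ∨ ∀ᶠ t in atTop, 0 < u t := by
  obtain ⟨l, l', h⟩ := h
  by_cases k : τ.Le l l'
  · exact .inl ((h.and k).mono fun t ht => by have := ht.2; omega)
  · exact .inr ((h.and (τ.not_Le k)).mono fun t ht => by have := ht.2; omega)

theorem Mon.sub (h : τ.Mon u) (k : τ.Mon v) : τ.Mon fun t => u t - v t := by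
  obtain ⟨a, b, h⟩ := h
  obtain ⟨c, d, k⟩ := k
  exact ⟨a ++ d, b ++ c, (h.and k).mono fun t ht => by simp [ht.1, ht.2]; ring⟩

theorem Small.add (h : τ.Small f u) (k : τ.Small f v) : τ.Small f fun t => u t + v t := by
  obtain ⟨a, b, h⟩ := h
  obtain ⟨c, d, k⟩ := k
  refine ⟨max a c, b + d, (h.and k).mono fun t ht => ?_⟩
  have h1 := w_mono (τ := τ) (t := t) (pf_le f (le_max_left a c))
  have h2 := w_mono (τ := τ) (t := t) (pf_le f (le_max_right a c))
  push_cast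
  nlinarith [ht.1, ht.2]

theorem Small.mono (h : τ.Small f v) (k : ∀ᶠ t in atTop, u t ≤ v t) : τ.Small f u := by
  obtain ⟨a, b, h⟩ := h
  exact ⟨a, b, (h.and k).mono fun t ht => ht.2.trans ht.1⟩

theorem Small.const (n : ℕ) : τ.Small f fun _ => n :=
  ⟨0, n, .of_forall fun t => by simp [w, pf]⟩

theorem grow (hf : τ.Path f) {ρ} (h : Rt f ρ) (k n : ℕ) :
    ∀ᶠ t in atTop, τ.E t (pf f k) + n ≤ τ.E t ρ :=
  (eventually_ge_atTop (k + n)).mono fun _ ht => τ.E_take (hf (k + n + ρ.length)) (a := k)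
    (by rw [take_pf f (by omega)]) (lt_of_take le_rfl (by rwa [take_pf f (by omega)]))
    (by simp) ht

theorem grow' (hf : τ.Path f) {ρ} (h : Rt f ρ) (k n : ℕ) :
    ∀ᶠ t in atTop, n * τ.w t (pf f k) < τ.w t ρ :=
  (grow hf h k n).mono fun t ht => by
    have h1 : (n : ℤ) < 2 ^ n := by exact_mod_cast Nat.lt_two_pow_self
    calc n * τ.w t (pf f k) < 2 ^ n * τ.w t (pf f k) := mul_lt_mul_of_pos_right h1 (w_pos _ _)
      _ = 2 ^ (τ.E t (pf f k) + n) := by rw [w, pow_add, mul_comm]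
      _ ≤ _ := pow_le_pow_right₀ one_le_two ht

theorem Rt_R (hf : τ.Path f) : Rt f τ.R := by
  have := τ.bd [] (f 0) (hf 1)
  simpa [Rt, R, pf, List.cons_lt_cons_iff] using this

theorem not_small (hf : τ.Path f) {ρ} (h : Rt f ρ) (N : ℕ)
    (k : ∀ᶠ t in atTop, τ.w t ρ ≤ N * u t) : ¬ τ.Small f u := by
  rintro ⟨a, b, h1⟩
  obtain ⟨t, h2, h3, h4⟩ := (k.and (h1.and (grow' hf h a (N * b)))).exists
  push_cast at h4
  nlinarith [mul_le_mul_of_nonneg_left h3 (Int.natCast_nonneg N)]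

theorem W_split (t l) : τ.W t l =
    τ.W t (l.filter fun v => ¬ Rt f (dl v)) + τ.W t (l.filter fun v => Rt f (dl v)) :=
  sum_split l (fun v => Rt f (dl v)) _

theorem W_left (t) {l k} (hk : sb l ≤ k) :
    (τ.W t (l.filter fun v => ¬ Rt f (dl v)) : ℤ) ≤ l.length * τ.w t (pf f k) := by
  have : τ.W t (l.filter fun v => ¬ Rt f (dl v)) ≤ l.length * 2 ^ τ.E t (pf f k) := by
    refine (List.sum_le_card_nsmul _ (2 ^ τ.E t (pf f k)) ?_).trans ?_
    · simp only [List.mem_map, List.mem_filter, decide_eq_true_eq]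
      rintro _ ⟨v, ⟨h1, h2⟩, rfl⟩
      have := List.single_le_sum (fun _ _ => Nat.zero_le _) _
        (List.mem_map.2 ⟨v, h1, rfl⟩ : (dl v).length ∈ l.map fun v => (dl v).length)
      exact Nat.pow_le_pow_right two_pos (τ.E_mono le_rfl
        ((not_lt.1 h2).trans (pf_le f (by unfold sb at hk; omega))))
    · rw [smul_eq_mul, List.length_map]
      exact Nat.mul_le_mul_right _ (List.length_filter_le _ _)
  unfold w
  exact_mod_cast this

theorem W_dvd (t) {l : List ℕ} {e : ℕ} (h : ∀ v ∈ l, e ≤ τ.E t (dl v)) :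
    (2 ^ e : ℤ) ∣ τ.W t l := by
  induction l with
  | nil => simp
  | cons v l ih =>
    rw [W_cons]
    push_cast
    exact dvd_add (pow_dvd_pow _ (h v List.mem_cons_self))
      (ih fun v hv => h v (List.mem_cons_of_mem _ hv))

theorem small_of_le {l l'} (h : ∀ᶠ t in atTop, u t = τ.W t l - τ.W t l')
    (k : τ.Le (l.filter fun v => Rt f (dl v)) (l'.filter fun v => Rt f (dl v))) :
    τ.Small f u :=
  ⟨sb l, l.length, (h.and k).mono fun t ht => by
    have h1 := W_left (τ := τ) (f := f) t (le_refl (sb l))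
    have h2 := W_split (τ := τ) (f := f) t l
    have h3 := W_split (τ := τ) (f := f) t l'
    have := ht.2
    omega⟩

theorem big_of_not_le (hf : τ.Path f) {l l'} (h : ∀ᶠ t in atTop, u t = τ.W t l - τ.W t l')
    (k : ¬ τ.Le (l.filter fun v => Rt f (dl v)) (l'.filter fun v => Rt f (dl v))) :
    ∃ ρ, Rt f ρ ∧ ∀ᶠ t in atTop, τ.w t ρ ≤ (2 : ℕ) * u t := by
  have k := τ.not_Le k
  obtain ⟨v, h1, h2⟩ := Finset.exists_min_image
    ((l ++ l').filter fun v => Rt f (dl v)).toFinset dl (by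
      obtain ⟨t, ht⟩ := k.exists
      cases e : l.filter fun v => Rt f (dl v) with
      | nil => simp [e] at ht
      | cons v _ => exact ⟨v, by simp only [List.filter_append, e]; simp⟩)
  simp only [List.mem_toFinset, List.mem_filter, decide_eq_true_eq, List.mem_append] at h1 h2
  refine ⟨dl v, h1.2, ?_⟩
  filter_upwards [h, k, grow' hf h1.2 (sb l') (2 * l'.length)] with t h3 h4 h5
  have h6 := W_left (τ := τ) (f := f) t (le_refl (sb l'))
  have h7 := W_split (τ := τ) (f := f) t l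
  have h8 := W_split (τ := τ) (f := f) t l'
  have h9 := Int.le_of_dvd (by omega) (dvd_sub
    (W_dvd (τ := τ) t (l := l.filter fun v => Rt f (dl v)) (e := τ.E t (dl v)) fun x hx =>
      τ.E_mono le_rfl (h2 x ⟨.inl (List.mem_filter.1 hx).1, by simpa using (List.mem_filter.1 hx).2⟩))
    (W_dvd (τ := τ) t (l := l'.filter fun v => Rt f (dl v)) fun x hx =>
      τ.E_mono le_rfl (h2 x ⟨.inr (List.mem_filter.1 hx).1, by simpa using (List.mem_filter.1 hx).2⟩)))
  push_cast at h5 ⊢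
  change τ.w t (dl v) ≤ _ at h9
  rw [mul_assoc] at h5
  omega

theorem div3 (hf : τ.Path f) (h : τ.Mon u) (n : ℕ) :
    ∀ᶠ t in atTop, n ≤ |3 * u t - τ.w t τ.R| := by
  obtain ⟨l, l', h⟩ := h
  let k := sb l + sb l'
  let m := 3 * (l.length + l'.length) + n
  have h1 : ∀ q : List ℕ, ∀ᶠ t in atTop, ∀ v ∈ q.filter fun v => Rt f (dl v),
      τ.E t (pf f k) + m ≤ τ.E t (dl v) := fun q =>
    (eventually_all_finite (List.finite_toSet _)).2 fun v hv =>
      grow hf (by simpa using (List.mem_filter.1 hv).2) _ _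
  filter_upwards [h, h1 l, h1 l', grow hf (Rt_R hf) k m] with t h2 h3 h4 h5
  have h6 := W_left (τ := τ) (f := f) t (l := l) (k := k) (by omega)
  have h6' := W_left (τ := τ) (f := f) t (l := l') (k := k) (by omega)
  have h7 := W_split (τ := τ) (f := f) t l
  have h8 := W_split (τ := τ) (f := f) t l'
  have h9 := dvd_sub ((dvd_sub (W_dvd t h3) (W_dvd t h4)).mul_left 3) (pow_dvd_pow (2 : ℤ) h5)
  have h10 := Int.le_abs_of_dvd (fun h => by
    have : (3 : ℤ) ∣ 2 ^ τ.E t τ.R := ⟨_, (sub_eq_zero.1 h).symm⟩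
    exact absurd (Int.prime_three.dvd_of_dvd_pow this) (by norm_num)) h9
  have h11 : (m : ℤ) < 2 ^ m := by exact_mod_cast Nat.lt_two_pow_self
  have h12 := w_pos (τ := τ) t (pf f k)
  have h13 : m * τ.w t (pf f k) ≤ 2 ^ (τ.E t (pf f k) + m) := by
    rw [pow_add, mul_comm]
    exact mul_le_mul_of_nonneg_left h11.le h12.le
  have h14 : (n : ℤ) ≤ n * τ.w t (pf f k) := le_mul_of_one_le_right (by omega) h12
  simp only [m] at h13 h10
  push_cast at h13
  change _ ≤ |_ - τ.w t τ.R| at h10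
  rw [add_mul, mul_assoc, add_mul] at h13
  rw [le_abs] at h10 ⊢
  omega

theorem extract (I : List ℕ → Prop) (h0 : I []) (hR : ¬ I τ.R)
    (hI : ∀ ρ ρ', (∃ c, ∀ t, τ.E t ρ' ≤ τ.E t ρ + c) → I ρ → I ρ') :
    ∃ f, τ.Path f ∧ ∀ ρ, I ρ ↔ ¬ Rt f ρ := by
  let Inv : List ℕ → Prop := fun σ =>
    I σ ∧ ∃ ρ, ¬ I ρ ∧ ∀ s, τ.T s = true → σ ≤ s → s < ρ → σ <+: s
  have h1 : ∀ σ, Inv σ → τ.T σ = true := by
    rintro σ ⟨h1, ρ, h2, h3⟩
    obtain ⟨s, h4, h5, h6⟩ := Set.Infinite.nonempty fun h => h2 (hI σ ρ (τ.E_le h) h1)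
    exact τ.pre _ _ (h3 s h4 h5 h6) h4
  have h2 : ∀ σ, Inv σ → ∃ i, Inv (σ ++ [i]) ∧ ¬ I (σ ++ [i + 1]) := by
    rintro σ ⟨h1, ρ, h2, h3⟩
    have h4 : I (σ ++ [0]) := hI _ _ (τ.E_le ((Set.finite_singleton σ).subset fun s hs =>
      eq_of_lt_zero hs.2.1.not_gt hs.2.2)) h1
    have h5 : ¬ I (σ ++ [τ.g σ]) := fun h => h2 (hI _ _ (τ.E_le (Set.finite_empty.subset ?_)) h)
    · obtain ⟨i, h6, h7⟩ : ∃ i, I (σ ++ [i]) ∧ ¬ I (σ ++ [i + 1]) := by
        by_contra k
        push Not at k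
        exact h5 (Nat.rec (motive := fun i => I (σ ++ [i])) h4 k _)
      exact ⟨i, ⟨h6, _, h7, fun s _ k1 k2 => pre_of_between k1.not_gt k2⟩, h7⟩
    · rintro s ⟨k1, k2, k3⟩
      obtain ⟨r, rfl⟩ := h3 s k1 ((ple (List.prefix_append _ _)).trans k2) k3
      have k4 := mt (app_lt σ).2 k2.not_gt
      cases r with
      | nil => simp at k4
      | cons j r =>
        have := τ.bd σ j (τ.pre _ _ ⟨r, by simp⟩ k1)
        simp [List.cons_lt_cons_iff] at k4
        omega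
  choose! F hF using h2
  let s : ℕ → List ℕ := fun n => Nat.rec [] (fun _ σ => σ ++ [F σ]) n
  have h3 : ∀ n, Inv (s n) := fun n => by
    induction n with
    | zero => exact ⟨h0, _, hR, fun _ _ _ _ => List.nil_prefix⟩
    | succ n ih => exact (hF _ ih).1
  have h4 : ∀ n, pf (fun n => F (s n)) n = s n := fun n => by
    induction n with
    | zero => rfl
    | succ n ih => rw [pf_succ, ih]
  have h5 : ∀ ρ ρ', ρ' ≤ ρ → I ρ → I ρ' := fun ρ ρ' h => hI _ _ ⟨0, fun t => τ.E_mono le_rfl h⟩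
  refine ⟨fun n => F (s n), fun n => h4 n ▸ h1 _ (h3 n), fun ρ => ⟨fun k1 k2 => ?_, fun k => ?_⟩⟩
  · obtain ⟨j, k3, k4⟩ := first_diff (by simp) k2
    rw [pf_length] at k3
    rw [take_pf _ k3.le, h4] at k4
    refine (hF _ (h3 j)).2 (h5 _ _ (not_lt.1 ?_) k1)
    simpa [pf, List.getD_eq_getElem?_getD, k3] using k4
  · exact h5 _ _ (h4 _ ▸ not_lt.1 k) (h3 ρ.length).1

end Tr

end Pool.Agent.H.MP_fed070_lc
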