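import Pool.Agent.Lib.helper13.PR
import Pool.Agent.Lib.helper21.CPred

namespace Pool.Agent.H.MP_fed070_lc

open Pool.Agent.Lib.PR Filter Encodable

attribute [local irreducible] Primrec Computable

/-- a computable, computably bounded tree -/
structure Tr where
  T : List ℕ → Bool
  g : List ℕ → ℕ
  cT : Computable T
  cg : Computable g
  pre : ∀ σ τ : List ℕ, σ <+: τ → T τ = true → T σ = true
  bd : ∀ (σ : List ℕ) (i : ℕ), T (σ ++ [i]) = true → i < g σ

theorem ple {a b : List ℕ} (h : a <+: b) : a ≤ b := not_lt.1 (List.IsPrefix.le h)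

theorem lt_of_take : ∀ {ρ τ : List ℕ} {k : ℕ}, ρ.length ≤ k → τ.take k < ρ → τ < ρ
  | [], _, _, _, h => by simp at h
  | _ :: _, [], _, _, _ => by simp
  | _ :: _, _ :: _, 0, h, _ => by simp at h
  | a :: ρ, b :: τ, k + 1, h, h2 => by
    rw [List.take_succ_cons] at h2
    rw [List.cons_lt_cons_iff] at h2 ⊢
    exact h2.imp id fun h3 => ⟨h3.1, lt_of_take (by simpa using h) h3.2⟩

theorem le_take {ρ τ : List ℕ} {k : ℕ} (h : ρ.length ≤ k) (h2 : ρ ≤ τ) : ρ ≤ τ.take k :=
  not_lt.1 fun h3 => h2.not_gt (lt_of_take h h3)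

theorem pre_of_between : ∀ {σ τ : List ℕ} {i : ℕ}, ¬ τ < σ ++ [i] → τ < σ ++ [i + 1] →
    σ ++ [i] <+: τ
  | [], [], _, h, _ => by simp at h
  | [], b :: τ, i, h, k => by
    simp only [List.nil_append, List.cons_lt_cons_iff, List.not_lt_nil,
      and_false, or_false] at h k
    obtain rfl : i = b := by omega
    simp
  | _ :: _, [], _, h, _ => by simp at h
  | a :: σ, b :: τ, i, h, k => by
    simp only [List.cons_append, List.cons_lt_cons_iff, not_or, not_and] at h k
    obtain rfl : b = a := by omega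
    simp only [lt_irrefl, true_and, false_or] at k
    simpa using pre_of_between (h.2 rfl) k

@[fun_prop] theorem p_llt {α : Type} [Primcodable α] {f g : α → List ℕ} (hf : Primrec f)
    (hg : Primrec g) : Primrec fun a => cd (f a < g a) := by
  have : Primrec fun a => cd ((f a = (g a).take (f a).length ∧ (f a).length < (g a).length) ∨
      ∃ i < (f a).length, i < (g a).length ∧ (∀ j < i, (f a).getD j 0 = (g a).getD j 0) ∧
        (f a).getD i 0 < (g a).getD i 0) := by fun_prop
  refine this.of_eq fun a => ?_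
  congr 1
  rw [List.lt_iff_exists]
  refine propext (or_congr_right (exists_congr fun i => ?_))
  constructor
  · rintro ⟨h1, h2, h3, h4⟩
    refine ⟨h1, h2, fun j hj => ?_, ?_⟩
    · have := h3 j hj
      rwa [List.getD_eq_getElem _ _ (by omega), List.getD_eq_getElem _ _ (by omega)] at this
    · rwa [List.getD_eq_getElem _ _ h1, List.getD_eq_getElem _ _ h2] at h4
  · rintro ⟨h1, h2, h3, h4⟩
    refine ⟨h1, h2, fun j hj => ?_, ?_⟩
    · rw [List.getD_eq_getElem _ _ (by omega), List.getD_eq_getElem _ _ (by omega)]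
      exact h3 j hj
    · rwa [List.getD_eq_getElem _ _ h1, List.getD_eq_getElem _ _ h2]

theorem c_tab {β : Type} [Primcodable β] {F : ℕ → β} (hF : Computable F) :
    Computable fun n => (List.range n).map F :=
  (Computable.nat_rec Computable.id (Computable.const []) (h := fun _ p => p.2 ++ [F p.1])
    (Computable.list_concat.comp (Computable.snd.comp Computable.snd)
      (hF.comp (Computable.fst.comp Computable.snd))).to₂).of_eq fun n => by
    simp only [id]
    induction n with
    | zero => rfl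
    | succ n ih => simp only [List.range_succ, List.map_append, ← ih, List.map_cons, List.map_nil]

/-- the string coded by a number -/
def dl (v : ℕ) : List ℕ := (decode (α := List ℕ) v).getD []

@[simp] theorem dl_encode (l : List ℕ) : dl (encode l) = l := by simp [dl]

theorem encode_dl (v : ℕ) : encode (dl v) = v := by
  simp [dl, Denumerable.decode_eq_ofNat]

@[fun_prop] theorem p_dl {α : Type} [Primcodable α] {f : α → ℕ} (hf : Primrec f) :
    Primrec fun a => dl (f a) := by unfold dl; fun_prop

namespace Tr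

variable (τ : Tr)

theorem exists_nodes : ∃ N : ℕ → List (List ℕ), Computable N ∧ ∀ t, (N t).Nodup ∧
    ∀ σ, σ ∈ N t ↔ τ.T σ = true ∧ σ.length ≤ t := by
  let st : ℕ × List ℕ → ℕ := fun p => p.1 + ((List.range p.1).map fun c =>
    ((List.range (p.2.getD c 0)).map fun i => encode (dl c ++ [i]) + 1).sum).sum
  have hst : Primrec st := by unfold st; fun_prop
  let B : ℕ → ℕ := fun k => Nat.rec 1 (fun _ b => st (b, (List.range b).map fun c => τ.g (dl c))) k
  have hB : Computable B := Computable.nat_rec Computable.id (Computable.const 1)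
    (h := fun _ p => st (p.2, (List.range p.2).map fun c => τ.g (dl c)))
    (hst.to_comp.comp ((Computable.snd.comp Computable.snd).pair
      ((c_tab (τ.cg.comp (p_dl Primrec.id).to_comp)).comp
        (Computable.snd.comp Computable.snd)))).to₂
  have h1 : ∀ k σ, τ.T σ = true → σ.length ≤ k → encode σ < B k := fun k => by
    induction k with
    | zero =>
      intro σ _ h
      obtain rfl : σ = [] := by simpa using h
      exact Nat.one_pos
    | succ k ih =>
      intro σ hσ h
      change _ < B k + _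
      rcases σ.eq_nil_or_concat' with rfl | ⟨ρ, i, rfl⟩
      · exact (ih [] hσ (by simp)).trans_le (Nat.le_add_right _ _)
      · have h2 := ih ρ (τ.pre _ _ (List.prefix_append _ _) hσ) (by simpa using h)
        refine lt_of_lt_of_le ?_ (Nat.le_add_left _ _)
        refine lt_of_lt_of_le ?_ (List.single_le_sum (fun _ _ => Nat.zero_le _) _
          (List.mem_map.2 ⟨encode ρ, List.mem_range.2 h2, rfl⟩))
        refine lt_of_lt_of_le ?_ (List.single_le_sum (fun _ _ => Nat.zero_le _) _
          (List.mem_map.2 ⟨i, List.mem_range.2 ?_, rfl⟩))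
        · simp
        · change i < ((List.range (B k)).map fun c => τ.g (dl c)).getD (encode ρ) 0
          simpa [List.getD_eq_getElem?_getD, h2] using τ.bd ρ i hσ
  let F : ℕ × ℕ × List Bool → List (List ℕ) := fun p => ((List.range p.2.1).filter fun c =>
    p.2.2.getD c false && decide ((dl c).length ≤ p.1)).map dl
  have hF : Primrec F := by unfold F; fun_prop
  refine ⟨fun t => F (t, B t, (List.range (B t)).map fun c => τ.T (dl c)), hF.to_comp.comp
    (Computable.id.pair (hB.pair ((c_tab (τ.cT.comp (p_dl Primrec.id).to_comp)).comp hB))),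
    fun t => ⟨(List.nodup_range.filter _).map fun a b h => ?_, fun σ => ?_⟩⟩
  · rw [← encode_dl a, h, encode_dl]
  · simp only [F, List.mem_map, List.mem_filter, List.mem_range, Bool.and_eq_true,
      decide_eq_true_eq]
    constructor
    · rintro ⟨c, ⟨h2, h3, h4⟩, rfl⟩
      exact ⟨by simpa [List.getD_eq_getElem?_getD, h2] using h3, h4⟩
    · rintro ⟨h2, h3⟩
      have h4 := h1 t σ h2 h3
      exact ⟨encode σ, ⟨h4, by simpa [List.getD_eq_getElem?_getD, h4] using h2, by simpa⟩, by simp⟩

/-- the list of nodes of bounded length -/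
noncomputable def N : ℕ → List (List ℕ) := τ.exists_nodes.choose

theorem cN : Computable τ.N := τ.exists_nodes.choose_spec.1
theorem mem_N {t σ} : σ ∈ τ.N t ↔ τ.T σ = true ∧ σ.length ≤ t :=
  (τ.exists_nodes.choose_spec.2 t).2 σ

end Tr

/-- number of listed strings below a string -/
noncomputable def EN (N : List (List ℕ)) (ρ : List ℕ) : ℕ := N.countP fun σ => cd (σ < ρ)

/-- weight of a monomial -/
noncomputable def WN (N : List (List ℕ)) (l : List ℕ) : ℕ := (l.map fun v => 2 ^ EN N (dl v)).sum

@[fun_prop] theorem p_WN {α : Type} [Primcodable α] {f : α → List (List ℕ)} {g : α → List ℕ}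
    (hf : Primrec f) (hg : Primrec g) : Primrec fun a => WN (f a) (g a) := by
  unfold WN EN; fun_prop

namespace Tr

variable (τ : Tr)

/-- exponent of a string at a stage -/
noncomputable def E (t : ℕ) (ρ : List ℕ) : ℕ := EN (τ.N t) ρ
/-- weight of a monomial at a stage -/
noncomputable def W (t : ℕ) (l : List ℕ) : ℕ := WN (τ.N t) l

theorem E_eq (t ρ) : τ.E t ρ = ((τ.N t).toFinset.filter (· < ρ)).card := by
  have h : (τ.N t).Nodup := (τ.exists_nodes.choose_spec.2 t).1
  rw [E, EN, List.countP_eq_length_filter, ← List.toFinset_card_of_nodup (h.filter _)]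
  congr 1
  ext
  simp

theorem E_add {t t' ρ ρ'} (ht : t ≤ t') (h : ρ ≤ ρ') (S : Finset (List ℕ))
    (hS : ∀ σ ∈ S, τ.T σ = true ∧ σ.length ≤ t' ∧ ρ ≤ σ ∧ σ < ρ') :
    τ.E t ρ + S.card ≤ τ.E t' ρ' := by
  rw [E_eq, E_eq, ← Finset.card_union_of_disjoint]
  · refine Finset.card_le_card fun σ hσ => ?_
    simp only [Finset.mem_union, Finset.mem_filter, List.mem_toFinset, mem_N] at hσ ⊢
    rcases hσ with ⟨⟨h1, h2⟩, h3⟩ | h1
    · exact ⟨⟨h1, h2.trans ht⟩, h3.trans_le h⟩
    · exact ⟨⟨(hS σ h1).1, (hS σ h1).2.1⟩, (hS σ h1).2.2.2⟩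
  · exact Finset.disjoint_left.2 fun σ h1 h2 =>
      (Finset.mem_filter.1 h1).2.not_ge (hS σ h2).2.2.1

theorem E_mono {t t' ρ ρ'} (ht : t ≤ t') (h : ρ ≤ ρ') : τ.E t ρ ≤ τ.E t' ρ' := by
  simpa using τ.E_add ht h ∅ (by simp)

theorem E_le {ρ ρ'} (h : {σ | τ.T σ = true ∧ ρ ≤ σ ∧ σ < ρ'}.Finite) :
    ∃ c, ∀ t, τ.E t ρ' ≤ τ.E t ρ + c := by
  refine ⟨h.toFinset.card, fun t => ?_⟩
  rw [E_eq, E_eq]
  refine (Finset.card_le_card fun σ hσ => ?_).trans (Finset.card_union_le _ _)
  simp only [Finset.mem_union, Finset.mem_filter, List.mem_toFinset, mem_N,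
    Set.Finite.mem_toFinset, Set.mem_ofPred_eq] at hσ ⊢
  by_cases h1 : σ < ρ
  · exact .inl ⟨hσ.1, h1⟩
  · exact .inr ⟨hσ.1.1, not_lt.1 h1, hσ.2⟩

@[simp] theorem E_nil (t) : τ.E t [] = 0 := by simp [E_eq]

theorem E_take {t ρ ρ' σ a n} (hσ : τ.T σ = true) (h1 : ρ ≤ σ.take a) (h2 : σ < ρ')
    (h3 : a + n ≤ σ.length) (h4 : a + n ≤ t) : τ.E t ρ + n ≤ τ.E t ρ' := by
  have := τ.E_add (le_refl t) (h1.trans ((ple (List.take_prefix a σ)).trans h2.le))
    ((Finset.range n).image fun j => σ.take (a + j)) (by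
      simp only [Finset.mem_image, Finset.mem_range]
      rintro _ ⟨j, hj, rfl⟩
      refine ⟨τ.pre _ _ (List.take_prefix _ _) hσ, by simp; omega,
        h1.trans (ple ?_), (ple (List.take_prefix _ σ)).trans_lt h2⟩
      exact List.take_prefix_take_left (by omega))
  rwa [Finset.card_image_of_injOn, Finset.card_range] at this
  intro i hi j hj h
  have := congrArg List.length h
  simp only [Finset.coe_range, Set.mem_Iio, List.length_take] at hi hj this
  omega

theorem E_gap {s t m k ρ ρ'} (hst : s ≤ t) (h1 : ρ.length ≤ m) (hm : m + k ≤ s)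
    (h : τ.E t ρ + τ.E s ρ' < τ.E t ρ' + τ.E s ρ) : τ.E s ρ + k ≤ τ.E s ρ' := by
  have key : ∀ ρ, τ.E t ρ = τ.E s ρ +
      ((τ.N t).toFinset.filter fun σ => σ < ρ ∧ s < σ.length).card := fun ρ => by
    rw [E_eq, E_eq, ← Finset.card_union_of_disjoint]
    · congr 1
      ext σ
      simp only [Finset.mem_union, Finset.mem_filter, List.mem_toFinset, mem_N]
      by_cases h : σ.length ≤ s
      · simp [h, h.trans hst, h.not_gt]
      · simp [h, not_le.1 h]
    · exact Finset.disjoint_left.2 fun σ h1 h2 =>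
        (Finset.mem_filter.1 h2).2.2.not_ge (τ.mem_N.1 (List.mem_toFinset.1
          (Finset.mem_filter.1 h1).1)).2
  rw [key ρ, key ρ'] at h
  obtain ⟨σ, h2, h3⟩ := Finset.exists_mem_notMem_of_card_lt_card (s := (τ.N t).toFinset.filter
    fun σ => σ < ρ ∧ s < σ.length) (t := (τ.N t).toFinset.filter
    fun σ => σ < ρ' ∧ s < σ.length) (by omega)
  simp only [Finset.mem_filter, List.mem_toFinset, mem_N] at h2 h3
  exact τ.E_take h2.1.1 (le_take h1 (not_lt.1 fun h4 => h3 ⟨h2.1, h4, h2.2.2⟩)) h2.2.1
    (by omega) hm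

end Tr

theorem lexi {a1 a2 b1 b2 M : ℕ} (h1 : a1 < M) (h2 : a2 < M) (h3 : M ∣ b1) (h4 : M ∣ b2) :
    a1 + b1 ≤ a2 + b2 ↔ b1 < b2 ∨ (b1 = b2 ∧ a1 ≤ a2) := by
  obtain ⟨c1, rfl⟩ := h3
  obtain ⟨c2, rfl⟩ := h4
  rcases lt_trichotomy c1 c2 with h | rfl | h
  · have := Nat.mul_le_mul_left M (Nat.succ_le_of_lt h)
    rw [Nat.mul_succ] at this
    omega
  · omega
  · have := Nat.mul_le_mul_left M (Nat.succ_le_of_lt h)
    rw [Nat.mul_succ] at this
    omega

theorem sum_split (l : List ℕ) (p : ℕ → Prop) [DecidablePred p] (f : ℕ → ℕ) : (l.map f).sum =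
    ((l.filter fun v => ¬ p v).map f).sum + ((l.filter p).map f).sum := by
  induction l with
  | nil => rfl
  | cons v l ih => by_cases h : p v <;> simp [h, ih] <;> omega

theorem stab_aux (e d : ℕ → ℕ) (k : ℕ) (l l' : List ℕ) (hl : l.length < 2 ^ k)
    (hl' : l'.length < 2 ^ k) (h : ∀ i ∈ l ++ l', ∀ j ∈ l ++ l', d i < d j → e i + k ≤ e j) (n : ℕ) :
    (l.map fun v => 2 ^ (e v + min (d v) n)).sum ≤ (l'.map fun v => 2 ^ (e v + min (d v) n)).sum ↔
      (l.map fun v => 2 ^ e v).sum ≤ (l'.map fun v => 2 ^ e v).sum := by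
  induction n with
  | zero => simp
  | succ n ih =>
    rw [← ih]
    by_cases hU : ∃ j ∈ l ++ l', n < d j
    · classical
      obtain ⟨j, hj, hmin⟩ := (wellFounded_lt.onFun (f := e)).has_min
        {j | j ∈ l ++ l' ∧ n < d j} hU
      have low : ∀ q : List ℕ, q ⊆ l ++ l' → q.length < 2 ^ k →
          ((q.filter fun v => ¬ n < d v).map fun v => 2 ^ (e v + min (d v) n)).sum <
            2 ^ (e j + n) := fun q hq hk => by
        have h1 : ((q.filter fun v => ¬ n < d v).map fun v => 2 ^ (e v + min (d v) n)).sum * 2 ^ k ≤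
            q.length * 2 ^ (e j + n) := by
          rw [← List.sum_map_mul_right]
          refine (List.sum_le_card_nsmul _ (2 ^ (e j + n)) ?_).trans ?_
          · simp only [List.mem_map, List.mem_filter, decide_eq_true_eq]
            rintro _ ⟨i, ⟨h1, h2⟩, rfl⟩
            have := h i (hq h1) j hj.1 (by have := hj.2; omega)
            rw [← pow_add]
            exact Nat.pow_le_pow_right two_pos (by omega)
          · rw [smul_eq_mul, List.length_map]
            exact Nat.mul_le_mul_right _ (List.length_filter_le _ _)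
        refine lt_of_mul_lt_mul_right (h1.trans_lt ?_) (Nat.zero_le (2 ^ k))
        rw [mul_comm]
        exact Nat.mul_lt_mul_of_pos_left hk (by positivity)
      have up : ∀ q : List ℕ, q ⊆ l ++ l' → 2 ^ (e j + n) ∣
          ((q.filter fun v => n < d v).map fun v => 2 ^ (e v + min (d v) n)).sum := fun q hq => by
        refine List.dvd_sum ?_
        simp only [List.mem_map, List.mem_filter, decide_eq_true_eq]
        rintro _ ⟨i, ⟨h1, h2⟩, rfl⟩
        have := hmin i ⟨hq h1, h2⟩
        simp only [Function.onFun, not_lt] at this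
        exact pow_dvd_pow _ (by omega)
      have e1 : ∀ q : List ℕ, (q.map fun v => 2 ^ (e v + min (d v) (n + 1))).sum =
          ((q.filter fun v => ¬ n < d v).map fun v => 2 ^ (e v + min (d v) n)).sum +
          ((q.filter fun v => n < d v).map fun v => 2 ^ (e v + min (d v) n)).sum * 2 := fun q => by
        rw [sum_split q fun v => n < d v, ← List.sum_map_mul_right]
        congr 2
        · refine List.map_congr_left fun i hi => ?_
          have := (List.mem_filter.1 hi).2
          simp only [decide_eq_true_eq] at this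
          congr 2
          omega
        · refine List.map_congr_left fun i hi => ?_
          have := (List.mem_filter.1 hi).2
          simp only [decide_eq_true_eq] at this
          rw [← pow_succ]
          congr 1
          omega
      have a1 := low l (List.subset_append_left _ _) hl
      have a2 := low l' (List.subset_append_right _ _) hl'
      have a3 := up l (List.subset_append_left _ _)
      have a4 := up l' (List.subset_append_right _ _)
      rw [e1, e1, sum_split l fun v => n < d v, sum_split l' fun v => n < d v, lexi a1 a2 a3 a4,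
        lexi a1 a2 (a3.mul_right 2) (a4.mul_right 2)]
      omega
    · push Not at hU
      have e1 : ∀ q : List ℕ, q ⊆ l ++ l' → (q.map fun v => 2 ^ (e v + min (d v) (n + 1))) =
          q.map fun v => 2 ^ (e v + min (d v) n) := fun q hq => List.map_congr_left fun i hi => by
        have := hU i (hq hi)
        congr 2
        omega
      rw [e1 l (List.subset_append_left _ _), e1 l' (List.subset_append_right _ _)]

/-- stage from which a comparison is stable -/
def sb (l : List ℕ) : ℕ := (l.map fun v => (dl v).length).sum + l.length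

namespace Tr

variable (τ : Tr)

theorem stab {l l' : List ℕ} {t : ℕ} (ht : sb (l ++ l') ≤ t) :
    τ.W t l ≤ τ.W t l' ↔ τ.W (sb (l ++ l')) l ≤ τ.W (sb (l ++ l')) l' := by
  set s := sb (l ++ l') with hs
  have h1 := fun v => τ.E_mono (ρ := dl v) ht le_rfl
  have := stab_aux (fun v => τ.E s (dl v)) (fun v => τ.E t (dl v) - τ.E s (dl v))
    (l ++ l').length l l' (Nat.lt_two_pow_self.trans_le' (by simp))
    (Nat.lt_two_pow_self.trans_le' (by simp)) (fun i hi j hj h => τ.E_gap ht
      (List.single_le_sum (fun _ _ => Nat.zero_le _) _ (List.mem_map.2 ⟨i, hi, rfl⟩))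
      (m := ((l ++ l').map fun v => (dl v).length).sum) hs.ge (by
        have := h1 i
        have := h1 j
        omega)) (τ.N t).length
  have e1 : (fun v => 2 ^ (τ.E s (dl v) + min (τ.E t (dl v) - τ.E s (dl v)) (τ.N t).length)) =
      fun v => 2 ^ τ.E t (dl v) := funext fun v => by
    have := h1 v
    have : τ.E t (dl v) ≤ (τ.N t).length := List.countP_le_length
    congr 1
    omega
  rw [e1] at this
  exact this

/-- eventual comparison of monomials -/
def Le (l l' : List ℕ) : Prop := ∀ᶠ t in atTop, τ.W t l ≤ τ.W t l'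

theorem Le_iff {l l' : List ℕ} :
    τ.Le l l' ↔ τ.W (sb (l ++ l')) l ≤ τ.W (sb (l ++ l')) l' :=
  ⟨fun h => by
    obtain ⟨t, h1, h2⟩ := (h.and (eventually_ge_atTop (sb (l ++ l')))).exists
    exact (τ.stab h2).1 h1,
   fun h => (eventually_ge_atTop (sb (l ++ l'))).mono fun t ht => (τ.stab ht).2 h⟩

theorem not_Le {l l' : List ℕ} (h : ¬ τ.Le l l') : ∀ᶠ t in atTop, τ.W t l' < τ.W t l :=
  (eventually_ge_atTop (sb (l ++ l'))).mono fun _ ht =>
    not_le.1 fun k => h (τ.Le_iff.2 ((τ.stab ht).1 k))

theorem cLe : ComputablePred fun p : List ℕ × List ℕ => τ.Le p.1 p.2 := by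
  have h1 : Primrec fun p : List (List ℕ) × List ℕ × List ℕ =>
    cd (WN p.1 p.2.1 ≤ WN p.1 p.2.2) := by fun_prop
  have h2 : Primrec fun p : List ℕ × List ℕ => sb (p.1 ++ p.2) := by unfold sb; fun_prop
  exact (Lib.helper21.CPred.ccomp (pred h1).computablePred
    ((τ.cN.comp h2.to_comp).pair Computable.id)).of_eq fun p => τ.Le_iff.symm

@[simp] theorem W_nil (t) : τ.W t [] = 0 := rfl
@[simp] theorem W_cons (t v l) : τ.W t (v :: l) = 2 ^ τ.E t (dl v) + τ.W t l := by simp [W, WN, E]
@[simp] theorem W_append (t l l') : τ.W t (l ++ l') = τ.W t l + τ.W t l' := by simp [W, WN]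

end Tr

end Pool.Agent.H.MP_fed070_lc
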