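import Pool.Agent.H.MP_fed070_lc.Germ
import Pool.Agent.H.MP_5ae901_lc.Poly

namespace Pool.Agent.H.MP_fed070_lc

open Filter Encodable Classical MvPolynomial Pool.Agent.Lib.PR
open Pool.Agent.H.MP_5ae901_lc (Mo Po pmul Same tf tf_eq prod_X)

/-- integer polynomials -/
abbrev A := MvPolynomial ℕ ℤ
/-- rational functions -/
abbrev K := FractionRing A

/-- weighted order of a polynomial -/
noncomputable def o (w : ℕ → ℕ) (a : A) : ℕ :=
  (MvPowerSeries.weightedOrder w (a : MvPowerSeries ℕ ℤ)).toNat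

variable {w : ℕ → ℕ} {a b : A} {y z : K}

theorem o_cast (h : a ≠ 0) :
    (o w a : ℕ∞) = MvPowerSeries.weightedOrder w (a : MvPowerSeries ℕ ℤ) :=
  (MvPowerSeries.ne_zero_iff_weightedOrder_finite w).1 (mt coe_eq_zero_iff.1 h)

theorem o_mul (ha : a ≠ 0) (hb : b ≠ 0) : o w (a * b) = o w a + o w b := by
  have := o_cast (w := w) (mul_ne_zero ha hb)
  rw [coe_mul, MvPowerSeries.weightedOrder_mul, ← o_cast ha, ← o_cast hb] at this
  exact_mod_cast this

theorem o_add (ha : a ≠ 0) (hb : b ≠ 0) (h : a + b ≠ 0) : min (o w a) (o w b) ≤ o w (a + b) := by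
  have := MvPowerSeries.min_weightedOrder_le_add w (f := (a : MvPowerSeries ℕ ℤ)) (g := b)
  rw [← coe_add, ← o_cast ha, ← o_cast hb, ← o_cast h] at this
  simpa using this

theorem o_le {d} (h : coeff d a ≠ 0) : o w a ≤ Finsupp.weight w d := by
  have := MvPowerSeries.weightedOrder_le w (f := (a : MvPowerSeries ℕ ℤ)) (d := d) h
  rw [← o_cast (fun k => h (by simp [k]))] at this
  exact_mod_cast this

theorem o_eq (h : a ≠ 0) : ∃ d, coeff d a ≠ 0 ∧ Finsupp.weight w d = o w a := by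
  obtain ⟨d, h1, h2⟩ := MvPowerSeries.exists_coeff_ne_zero_and_weightedOrder w (o_cast h)
  rw [← o_cast h] at h2
  exact ⟨d, h1, by exact_mod_cast h2⟩

theorem o_monomial {d} {c : ℤ} (h : c ≠ 0) : o w (monomial d c) = Finsupp.weight w d := by
  obtain ⟨e, h1, h2⟩ := o_eq (w := w) (mt monomial_eq_zero.1 h : monomial d c ≠ 0)
  rw [coeff_monomial] at h1
  rw [← h2, of_not_not fun k => h1 (if_neg k)]

theorem rep (y : K) : ∃ p : A × A, p.2 ≠ 0 ∧ algebraMap A K p.1 / algebraMap A K p.2 = y := by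
  obtain ⟨a, b, h, k⟩ := IsFractionRing.div_surjective A y
  exact ⟨(a, b), nonZeroDivisors.ne_zero h, k⟩

/-- the Gauss valuation -/
noncomputable def nu (w : ℕ → ℕ) (y : K) : ℤ :=
  if y = 0 then 0 else o w (rep y).choose.1 - o w (rep y).choose.2

theorem am_ne (h : a ≠ 0) : algebraMap A K a ≠ 0 := by simpa using h

theorem nu_div (ha : a ≠ 0) (hb : b ≠ 0) :
    nu w (algebraMap A K a / algebraMap A K b) = o w a - o w b := by
  have h0 := div_ne_zero (am_ne ha) (am_ne hb)
  obtain ⟨h1, h2⟩ := (rep (algebraMap A K a / algebraMap A K b)).choose_spec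
  rw [nu, if_neg h0]
  generalize (rep (algebraMap A K a / algebraMap A K b)).choose = p at h1 h2
  have h3 : p.1 ≠ 0 := fun h => h0 (by rw [← h2, h]; simp)
  rw [div_eq_div_iff (am_ne h1) (am_ne hb), ← map_mul, ← map_mul] at h2
  have := congrArg (o w) (IsFractionRing.injective A K h2)
  rw [o_mul h3 hb, o_mul ha h1] at this
  omega

theorem rep' (hy : y ≠ 0) : ∃ a b : A, a ≠ 0 ∧ b ≠ 0 ∧ y = algebraMap A K a / algebraMap A K b := by
  obtain ⟨p, h1, rfl⟩ := rep y
  exact ⟨p.1, p.2, fun h => hy (by simp [h]), h1, rfl⟩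

theorem nu_mul (hy : y ≠ 0) (hz : z ≠ 0) : nu w (y * z) = nu w y + nu w z := by
  obtain ⟨a, b, ha, hb, rfl⟩ := rep' hy
  obtain ⟨c, d, hc, hd, rfl⟩ := rep' hz
  rw [div_mul_div_comm, ← map_mul, ← map_mul, nu_div ha hb, nu_div hc hd,
    nu_div (mul_ne_zero ha hc) (mul_ne_zero hb hd), o_mul ha hc, o_mul hb hd]
  omega

theorem nu_add (hy : y ≠ 0) (hz : z ≠ 0) (h : y + z ≠ 0) :
    min (nu w y) (nu w z) ≤ nu w (y + z) := by
  obtain ⟨a, b, ha, hb, rfl⟩ := rep' hy
  obtain ⟨c, d, hc, hd, rfl⟩ := rep' hz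
  rw [div_add_div _ _ (am_ne hb) (am_ne hd), ← map_mul, ← map_mul, ← map_mul, ← map_add] at h ⊢
  have h1 : a * d + b * c ≠ 0 := fun k => h (by simp [k])
  have := o_add (w := w) (mul_ne_zero ha hd) (mul_ne_zero hb hc) h1
  rw [o_mul ha hd, o_mul hb hc] at this
  rw [nu_div ha hb, nu_div hc hd, nu_div h1 (mul_ne_zero hb hd), o_mul hb hd]
  omega

theorem nu_monomial {d} {c : ℤ} (h : c ≠ 0) :
    nu w (algebraMap A K (monomial d c)) = Finsupp.weight w d := by
  have h1 := nu_div (w := w) (mt monomial_eq_zero.1 h : monomial d c ≠ 0) one_ne_zero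
  have h2 : o w 1 = 0 := by simpa using o_monomial (w := w) (d := 0) one_ne_zero
  simpa [h2, o_monomial h] using h1

theorem nu_int (c : ℤ) : nu w (c : K) = 0 := by
  by_cases h : c = 0
  · simp [nu, h]
  · simpa using nu_monomial (w := w) (d := 0) h

theorem nu_zero : nu w 0 = 0 := by simp [nu]
theorem nu_one : nu w 1 = 0 := by simpa using nu_int (w := w) 1

theorem nu_neg (y : K) : nu w (-y) = nu w y := by
  by_cases h : y = 0
  · simp [h]
  · have := nu_mul (w := w) (y := ((-1 : ℤ) : K)) (by simp) h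
    rw [nu_int] at this
    simpa using this

theorem nu_pow (hy : y ≠ 0) (n : ℕ) : nu w (y ^ n) = n * nu w y := by
  induction n with
  | zero => simp [nu_one]
  | succ n ih => rw [pow_succ, nu_mul (pow_ne_zero _ hy) hy, ih]; push_cast; ring

/-- polynomial coded by a list of signed monomials -/
noncomputable def P (p : Po) : A := (p.map fun m => monomial (tf m.2) ((-1) ^ m.1)).sum

/-- negation of codes -/
def pn (p : Po) : Po := p.map fun m => (m.1 + 1, m.2)

@[simp] theorem P_nil : P [] = 0 := rfl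
@[simp] theorem P_cons (m p) : P (m :: p) = monomial (tf m.2) ((-1) ^ m.1) + P p := by simp [P]
@[simp] theorem P_append (p q) : P (p ++ q) = P p + P q := by simp [P]
@[simp] theorem P_neg (p) : P (pn p) = - P p := by
  induction p with
  | nil => simp [pn]
  | cons m p ih =>
    have : pn (m :: p) = (m.1 + 1, m.2) :: pn p := rfl
    rw [this, P_cons, P_cons, ih]
    simp [pow_succ, add_comm]
theorem tf_append (l l') : tf (l ++ l') = tf l + tf l' := by simp [tf]
@[simp] theorem P_mul (p q) : P (pmul p q) = P p * P q := by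
  induction p with
  | nil => simp [pmul]
  | cons m p ih =>
    have : pmul (m :: p) q = (q.map fun n => (m.1 + n.1, m.2 ++ n.2)) ++ pmul p q := rfl
    rw [this, P_append, ih, P_cons, add_mul]
    congr 1
    clear this ih
    induction q with
    | nil => simp
    | cons n q ih2 =>
      rw [List.map_cons, P_cons, P_cons, ih2, mul_add, monomial_mul, tf_append, pow_add]
@[simp] theorem P_one : P [(0, [])] = 1 := by simp [tf]
@[simp] theorem P_X (v) : P [(0, [v])] = X v := by simp [tf, X]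

theorem P_surj (a : A) : ∃ p, P p = a := by
  induction a using MvPolynomial.induction_on with
  | C c =>
    induction c using Int.induction_on with
    | zero => exact ⟨[], by simp⟩
    | succ n ih => exact ⟨ih.choose ++ [(0, [])], by rw [P_append, ih.choose_spec, P_one]; simp⟩
    | pred n ih =>
      exact ⟨ih.choose ++ pn [(0, [])], by
        rw [P_append, ih.choose_spec, P_neg, P_one]; simp [sub_eq_add_neg]⟩
  | add p q h k => exact ⟨h.choose ++ k.choose, by rw [P_append, h.choose_spec, k.choose_spec]⟩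
  | mul_X p n h => exact ⟨pmul h.choose [(0, [n])], by rw [P_mul, h.choose_spec, P_X]⟩

/-- nonvanishing of a coefficient -/
def NZ (p : Po) (l : List ℕ) : Prop :=
  (p.countP fun m => cd (m.1 % 2 = 0 ∧ Same m.2 l)) ≠ p.countP fun m => cd (m.1 % 2 = 1 ∧ Same m.2 l)

theorem NZ_iff {p l} : NZ p l ↔ coeff (tf l) (P p) ≠ 0 := by
  have : coeff (tf l) (P p) = (p.countP fun m => cd (m.1 % 2 = 0 ∧ Same m.2 l) : ℕ) -
      (p.countP fun m => cd (m.1 % 2 = 1 ∧ Same m.2 l) : ℕ) := by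
    induction p with
    | nil => simp
    | cons m p ih =>
      rw [P_cons, coeff_add, ih, coeff_monomial, neg_one_pow_eq_pow_mod_two]
      simp only [List.countP_cons, cd_true, tf_eq]
      by_cases h : Same m.2 l
      · rcases Nat.mod_two_eq_zero_or_one m.1 with h2 | h2 <;> simp [h, h2] <;> ring
      · simp [h]
  rw [this, NZ]
  omega

theorem coeff_P {p d} (h : coeff d (P p) ≠ 0) : ∃ l ∈ p.map Prod.snd, tf l = d := by
  induction p with
  | nil => simp at h
  | cons m p ih =>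
    by_cases k : tf m.2 = d
    · exact ⟨m.2, by simp, k⟩
    · rw [P_cons, coeff_add, coeff_monomial, if_neg k, zero_add] at h
      obtain ⟨l, h1, h2⟩ := ih h
      exact ⟨l, List.mem_cons_of_mem _ h1, h2⟩

theorem P_ne {p} : P p ≠ 0 ↔ ∃ l ∈ p.map Prod.snd, NZ p l := by
  constructor
  · intro h
    obtain ⟨d, hd⟩ := ne_zero_iff.1 h
    obtain ⟨l, h1, rfl⟩ := coeff_P hd
    exact ⟨l, h1, NZ_iff.2 hd⟩
  · rintro ⟨l, -, h⟩ k
    simp [NZ_iff, k] at h

namespace Tr

variable (τ : Tr)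

/-- the weights of the variables -/
noncomputable def wt (t v : ℕ) : ℕ := 2 ^ τ.E t (dl v)

theorem weight_tf (t l) : Finsupp.weight (τ.wt t) (tf l) = τ.W t l := by
  induction l with
  | nil => simp [tf]
  | cons v l ih =>
    have : tf (v :: l) = Finsupp.single v 1 + tf l := by simp [tf]
    rw [this, map_add, ih, W_cons, Finsupp.weight_single]
    simp [wt]

/-- leading monomials -/
def Min (p : Po) (l : List ℕ) : Prop := NZ p l ∧ ∀ l' ∈ p.map Prod.snd, NZ p l' → τ.Le l l'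

variable {τ}

theorem Min.o {p l} (h : τ.Min p l) : ∀ᶠ t in atTop, o (τ.wt t) (P p) = τ.W t l := by
  have h1 : ∀ᶠ t in atTop, ∀ l' ∈ p.map Prod.snd, NZ p l' → τ.W t l ≤ τ.W t l' :=
    (eventually_all_finite (List.finite_toSet _)).2 fun l' hl => by
      by_cases k : NZ p l'
      · exact (h.2 l' hl k).mono fun _ h _ => h
      · exact .of_forall fun _ h => absurd h k
  refine h1.mono fun t ht => le_antisymm (τ.weight_tf t l ▸ o_le (NZ_iff.1 h.1)) ?_
  obtain ⟨d, h2, h3⟩ := o_eq (w := τ.wt t) (a := P p) fun k => NZ_iff.1 h.1 (by simp [k])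
  obtain ⟨l', h4, rfl⟩ := coeff_P h2
  rw [← h3, weight_tf]
  exact ht l' h4 (NZ_iff.2 h2)

theorem exists_Min {p} (h : P p ≠ 0) : ∃ l, τ.Min p l := by
  have h1 : ∀ᶠ t in atTop, ∀ l ∈ p.map Prod.snd, ∀ l' ∈ p.map Prod.snd,
      τ.W t l ≤ τ.W t l' → τ.Le l l' :=
    (eventually_all_finite (List.finite_toSet _)).2 fun l _ =>
      (eventually_all_finite (List.finite_toSet _)).2 fun l' _ => by
        by_cases k : τ.Le l l'
        · exact .of_forall fun _ _ => k
        · exact (τ.not_Le k).mono fun _ h k => absurd k h.not_ge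
  obtain ⟨t, ht⟩ := h1.exists
  obtain ⟨l, h2, h3⟩ := Finset.exists_min_image
    ((p.map Prod.snd).toFinset.filter (NZ p)) (τ.W t) (by simpa [Finset.Nonempty] using P_ne.1 h)
  simp only [Finset.mem_filter, List.mem_toFinset] at h2 h3
  exact ⟨l, h2.2, fun l' h4 h5 => ht l h2.1 l' h4 (h3 l' ⟨h4, h5⟩)⟩

variable (τ) in
/-- the valuations along the stages -/
noncomputable def ν (y : K) (t : ℕ) : ℤ := nu (τ.wt t) y

theorem ν_eq {p q l l'} (h : τ.Min p l) (k : τ.Min q l') : ∀ᶠ t in atTop,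
    τ.ν (algebraMap A K (P p) / algebraMap A K (P q)) t = τ.W t l - τ.W t l' :=
  (h.o.and k.o).mono fun t ht => by
    rw [ν, nu_div (fun e => NZ_iff.1 h.1 (by simp [e])) (fun e => NZ_iff.1 k.1 (by simp [e])),
      ht.1, ht.2]

theorem mon (y : K) : τ.Mon (τ.ν y) := by
  by_cases hy : y = 0
  · exact ⟨[], [], .of_forall fun t => by simp [ν, hy, nu_zero]⟩
  obtain ⟨a, b, ha, hb, rfl⟩ := rep' hy
  obtain ⟨p, rfl⟩ := P_surj a
  obtain ⟨q, rfl⟩ := P_surj b
  obtain ⟨l, h⟩ := exists_Min (τ := τ) ha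
  obtain ⟨l', k⟩ := exists_Min (τ := τ) hb
  exact ⟨l, l', ν_eq h k⟩

theorem ν_add (hy : y ≠ 0) (hz : z ≠ 0) (h : y + z ≠ 0) :
    (∀ᶠ t in atTop, τ.ν y t ≤ τ.ν (y + z) t) ∨ ∀ᶠ t in atTop, τ.ν z t ≤ τ.ν (y + z) t :=
  ((mon (τ := τ) y).sub (mon z)).tri.imp
    (fun k => k.mono fun t ht => by have := nu_add (w := τ.wt t) hy hz h; unfold ν at *; omega)
    (fun k => k.mono fun t ht => by have := nu_add (w := τ.wt t) hy hz h; unfold ν at *; omega)

variable (τ) in
/-- the localized valuation ring -/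
def V : Subring K where
  carrier := {y | ∃ n : ℕ, ∀ᶠ t in atTop, -n ≤ τ.ν y t}
  zero_mem' := ⟨0, .of_forall fun t => by simp [ν, nu_zero]⟩
  one_mem' := ⟨0, .of_forall fun t => by simp [ν, nu_one]⟩
  neg_mem' := fun ⟨n, h⟩ => ⟨n, by simpa [ν, nu_neg] using h⟩
  add_mem' := by
    rintro y z ⟨n, h⟩ ⟨m, k⟩
    by_cases hy : y = 0
    · exact ⟨m, by simpa [hy] using k⟩
    by_cases hz : z = 0
    · exact ⟨n, by simpa [hz] using h⟩
    by_cases e : y + z = 0
    · exact ⟨0, .of_forall fun t => by simp [ν, e, nu_zero]⟩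
    exact (ν_add hy hz e).elim (fun j => ⟨n, (h.and j).mono fun t ht => ht.1.trans ht.2⟩)
      fun j => ⟨m, (k.and j).mono fun t ht => ht.1.trans ht.2⟩
  mul_mem' := by
    rintro y z ⟨n, h⟩ ⟨m, k⟩
    by_cases e : y * z = 0
    · exact ⟨0, .of_forall fun t => by simp [ν, e, nu_zero]⟩
    refine ⟨n + m, (h.and k).mono fun t ht => ?_⟩
    have := nu_mul (w := τ.wt t) (left_ne_zero_of_mul e) (right_ne_zero_of_mul e)
    unfold ν at *
    omega

theorem ν_X (ρ t) : τ.ν (algebraMap A K (X (encode ρ))) t = τ.w t ρ := by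
  rw [ν, X, nu_monomial one_ne_zero, Finsupp.weight_single]
  simp [wt, w]

variable (τ) in
/-- the variables -/
noncomputable def x (ρ : List ℕ) : τ.V :=
  ⟨algebraMap A K (X (encode ρ)), 0, .of_forall fun t => by simpa [ν_X] using (w_pos t ρ).le⟩

theorem x_ne (ρ) : (τ.x ρ : K) ≠ 0 := am_ne (X_ne_zero _)
theorem ν_x (ρ t) : τ.ν (τ.x ρ) t = τ.w t ρ := ν_X ρ t

theorem dvd_pow' {a b : τ.V} (ha : (a : K) ≠ 0) (hb : (b : K) ≠ 0) (N : ℕ)
    (h : ∀ᶠ t in atTop, τ.ν a t ≤ N * τ.ν b t) : a ∣ b ^ N := by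
  have h1 : (a : K) * ((b : K) ^ N / a) = b ^ N := by field_simp
  refine ⟨⟨(b : K) ^ N / a, 0, h.mono fun t ht => ?_⟩, Subtype.ext (by simpa using h1.symm)⟩
  have := nu_mul (w := τ.wt t) ha (div_ne_zero (pow_ne_zero N hb) ha)
  rw [h1, nu_pow hb] at this
  unfold ν at *
  omega

/-- the ideal cutting off the right end -/
def J {f} (hf : τ.Path f) : Ideal τ.V where
  carrier := {y | (y : K) ≠ 0 → ∀ᶠ t in atTop, τ.w t τ.R < 3 * τ.ν y t}
  zero_mem' := fun h => absurd rfl h
  add_mem' := by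
    intro y z h k e
    by_cases hy : (y : K) = 0
    · simpa [hy] using k (by simpa [hy] using e)
    by_cases hz : (z : K) = 0
    · simpa [hz] using h hy
    exact (ν_add (τ := τ) hy hz e).elim
      (fun j => ((h hy).and j).mono fun t ht => by have := ht.2; push_cast; omega)
      fun j => ((k hz).and j).mono fun t ht => by have := ht.2; push_cast; omega
  smul_mem' := by
    rintro ⟨y, n, h⟩ z k e
    change y * z ≠ 0 at e
    filter_upwards [h, k (right_ne_zero_of_mul e), div3 hf (mon (z : K)) (3 * n + 1)]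
      with t h1 h2 h3
    have := nu_mul (w := τ.wt t) (left_ne_zero_of_mul e) (right_ne_zero_of_mul e)
    change _ < 3 * nu _ (y * z)
    rw [le_abs] at h3
    unfold ν at *
    omega

variable (τ) in
/-- the ideal of a path -/
def pr (f : ℕ → ℕ) : Ideal τ.V where
  carrier := {y | (y : K) ≠ 0 → ¬ τ.Small f (τ.ν y)}
  zero_mem' := fun h => absurd rfl h
  add_mem' := by
    intro y z h k e
    by_cases hy : (y : K) = 0
    · simpa [hy] using k (by simpa [hy] using e)
    by_cases hz : (z : K) = 0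
    · simpa [hz] using h hy
    exact fun s => (ν_add hy hz e).elim (fun j => h hy (s.mono j)) fun j => k hz (s.mono j)
  smul_mem' := by
    rintro ⟨y, n, h⟩ z k e s
    change y * z ≠ 0 at e
    refine k (right_ne_zero_of_mul e) ((s.add (Small.const n)).mono (h.mono fun t ht => ?_))
    have := nu_mul (w := τ.wt t) (left_ne_zero_of_mul e) (right_ne_zero_of_mul e)
    change _ ≤ nu _ (y * z) + _
    unfold ν at *
    omega

variable {f f0 : ℕ → ℕ}

theorem pr_prime (f) : (τ.pr f).IsPrime := by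
  refine ⟨(Ideal.ne_top_iff_one _).2 fun h => h one_ne_zero ((Small.const 0).mono
    (.of_forall fun t => by simp [ν, nu_one])), fun {y z} h => ?_⟩
  by_contra k
  simp only [not_or] at k
  obtain ⟨h1, h2⟩ := Classical.not_imp.1 k.1
  obtain ⟨h3, h4⟩ := Classical.not_imp.1 k.2
  exact h (mul_ne_zero h1 h3) (((of_not_not h2).add (of_not_not h4)).mono
    (.of_forall fun t => (nu_mul h1 h3).le))

theorem J_le (h0 : τ.Path f0) (hf : τ.Path f) : J h0 ≤ τ.pr f := fun _ h k =>
  not_small hf (Rt_R hf) 3 ((h k).mono fun _ ht => ht.le)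

theorem x_mem (hf : τ.Path f) (ρ) : τ.x ρ ∈ τ.pr f ↔ Rt f ρ :=
  ⟨fun h => by_contra fun k => h (x_ne ρ) ⟨ρ.length, 1, .of_forall fun t => by
      simpa [ν_x] using w_mono (not_lt.1 k)⟩,
    fun h _ => not_small hf h 1 (.of_forall fun t => by simp [ν_x])⟩

theorem prime_eq (h0 : τ.Path f0) (q : Ideal τ.V) (hq : q.IsPrime) (hJ : J h0 ≤ q) :
    ∃ f, τ.Path f ∧ q = τ.pr f := by
  have key : ∀ {a b : τ.V}, (a : K) ≠ 0 → (b : K) ≠ 0 → ∀ N : ℕ,
      (∀ᶠ t in atTop, τ.ν a t ≤ N * τ.ν b t) → a ∈ q → b ∈ q := fun ha hb N h k =>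
    hq.mem_of_pow_mem N (q.mem_of_dvd (dvd_pow' ha hb N h) k)
  obtain ⟨f, hf, h⟩ := extract (τ := τ) (fun ρ => τ.x ρ ∉ q) (fun h => by
      have h1 : (τ.x [] : K) * (τ.x [] : K)⁻¹ = 1 := mul_inv_cancel₀ (x_ne _)
      refine hq.ne_top (q.eq_top_of_isUnit_mem h (IsUnit.of_mul_eq_one ⟨(τ.x [] : K)⁻¹, 1,
        .of_forall fun t => ?_⟩ (Subtype.ext h1)))
      have := nu_mul (w := τ.wt t) (x_ne (τ := τ) []) (inv_ne_zero (x_ne (τ := τ) []))
      have h2 := ν_x (τ := τ) [] t
      rw [h1, nu_one] at this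
      simp only [w, E_nil] at h2
      unfold ν at *
      omega)
    (not_not.2 (hJ fun _ => .of_forall fun t => by have := w_pos (τ := τ) t τ.R; rw [ν_x]; omega))
    (fun ρ ρ' ⟨c, hc⟩ h k => h (key (x_ne _) (x_ne _) (2 ^ c) (.of_forall fun t => by
      rw [ν_x, ν_x, w, w]
      push_cast
      rw [← pow_add]
      exact pow_le_pow_right₀ one_le_two (by have := hc t; omega)) k))
  refine ⟨f, hf, Ideal.ext fun y => ⟨fun hy h1 ⟨k, N, h2⟩ => ?_, fun hy => ?_⟩⟩
  · exact (h (pf f k)).2 (by simp [Rt]) (key h1 (x_ne _) N (by simpa [ν_x] using h2) hy)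
  · by_cases h1 : (y : K) = 0
    · rw [show y = 0 from Subtype.ext h1]; exact q.zero_mem
    obtain ⟨l, l', h2⟩ := mon (τ := τ) (y : K)
    obtain ⟨ρ, h3, h4⟩ := big_of_not_le hf h2 fun k => hy h1 (small_of_le h2 k)
    exact key (x_ne ρ) h1 2 (by simpa [ν_x] using h4) (by_contra fun k => (h ρ).1 k h3)

end Tr

end Pool.Agent.H.MP_fed070_lc
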